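import Mathlib

/-!
# Eventual quasi-periodicity of the cash thresholds of interval subtraction games

For `A = {L, …, M}` we find a closed form for the cash thresholds `f_I`, `f_II` and deduce
that `f(n + L + M) = f(n) + M` for all large `n`.
-/

namespace Pool.Agent.Results.MP_88cfb8_co.CashThresholds

/-- `FirstWins L M n`: the player to move (Player I) wins the subtraction game with subtraction
set `{L, …, M}` from a pile of `n` stones, i.e. `W_A(n) = I`. -/
def FirstWins (L M : ℕ) (n : ℕ) : Prop :=
  ∃ a, ∃ _h : 1 ≤ a ∧ L ≤ a ∧ a ≤ M ∧ a ≤ n, ¬ FirstWins L M (n - a)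
termination_by n
decreasing_by omega

/-- The recursion that defines the cash thresholds `f_I`, `f_II` for `A = {L, …, M}`. -/
structure IsCash (L M : ℕ) (fI fII : ℕ → ℕ) : Prop where
  base : ∀ n, n < L → fI n = 0 ∧ fII n = 0
  two : ∀ n, L ≤ n →
    IsGreatest {x | ∃ a, L ≤ a ∧ a ≤ M ∧ a ≤ n ∧ x = fI (n - a)} (fII n)
  one_win : ∀ n, L ≤ n → FirstWins L M n →
    IsLeast {x | ∃ a, L ≤ a ∧ a ≤ M ∧ a ≤ n ∧ ¬ FirstWins L M (n - a) ∧ x = fII (n - a) + a}
      (fI n)
  one_lose : ∀ n, L ≤ n → ¬ FirstWins L M n →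
    IsLeast {x | ∃ a, L ≤ a ∧ a ≤ M ∧ a ≤ n ∧ fI (n - a) = fII n ∧ x = fII (n - a) + a}
      (fI n)

theorem div_mod_of {p q r n : ℕ} (hr : r < p) (hn : n = q * p + r) : n / p = q ∧ n % p = r := by
  subst hn
  constructor
  · rw [Nat.add_comm, Nat.add_mul_div_right _ _ (by omega), Nat.div_eq_of_lt hr, Nat.zero_add]
  · rw [Nat.add_comm, Nat.add_mul_mod_self_right, Nat.mod_eq_of_lt hr]

/-- Decomposition of `n - a`. -/
theorem sub_decomp {L M q r a : ℕ} (hL : 1 ≤ L) (_hLM : L ≤ M) (hr : r < L + M) (ha : L ≤ a)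
    (haM : a ≤ M) (han : a ≤ q * (L + M) + r) :
    (a ≤ r ∧ (q * (L + M) + r - a) / (L + M) = q ∧ (q * (L + M) + r - a) % (L + M) = r - a) ∨
    (r < a ∧ ∃ q', q = q' + 1 ∧ (q * (L + M) + r - a) / (L + M) = q' ∧
      (q * (L + M) + r - a) % (L + M) = r + (L + M) - a) := by
  by_cases h : a ≤ r
  · left
    refine ⟨h, ?_⟩
    exact div_mod_of (by omega) (by omega)
  · right
    refine ⟨by omega, ?_⟩
    rcases q with _ | q'
    · simp at han; omega
    · refine ⟨q', rfl, ?_⟩
      apply div_mod_of (by omega)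
      rw [Nat.add_mul]
      rw [Nat.add_mul] at han
      omega

theorem firstWins_iff {L M : ℕ} (hL : 1 ≤ L) (hLM : L ≤ M) (n : ℕ) :
    FirstWins L M n ↔ L ≤ n % (L + M) := by
  induction n using Nat.strong_induction_on with
  | _ n ih =>
    have hn : n = n / (L + M) * (L + M) + n % (L + M) := by
      rw [Nat.mul_comm]; exact (Nat.div_add_mod _ _).symm
    have hr : n % (L + M) < L + M := Nat.mod_lt _ (by omega)
    rw [FirstWins]
    constructor
    · rintro ⟨a, ⟨h1, h2, h3, h4⟩, h5⟩
      rw [ih _ (by omega)] at h5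
      by_contra hc
      apply h5
      have := sub_decomp hL hLM hr h2 h3 (hn ▸ h4)
      rw [← hn] at this
      rcases this with ⟨h6, -, h7⟩ | ⟨h6, q', -, -, h7⟩ <;> omega
    · intro h
      -- choose s
      by_cases hs : L - 1 ≤ n % (L + M) - L
      · refine ⟨n % (L + M) - (L - 1), ⟨by omega, by omega, by omega, by omega⟩, ?_⟩
        rw [ih _ (by omega)]
        have := sub_decomp (q := n / (L + M)) (a := n % (L + M) - (L - 1)) hL hLM hr
          (by omega) (by omega) (by omega)
        rw [← hn] at this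
        rcases this with ⟨h6, -, h7⟩ | ⟨h6, q', -, -, h7⟩ <;> omega
      · refine ⟨L, ⟨by omega, by omega, by omega, by omega⟩, ?_⟩
        rw [ih _ (by omega)]
        have := sub_decomp (q := n / (L + M)) (a := L) hL hLM hr
          (by omega) (by omega) (by omega)
        rw [← hn] at this
        rcases this with ⟨h6, -, h7⟩ | ⟨h6, q', -, -, h7⟩ <;> omega

/-- closed form of `f_I` in terms of quotient and remainder -/
def Fv (L M q r : ℕ) : ℕ :=
  max (q * M + r + 1 - L) (q * L + if L + q * L ≤ r + q * M then L else 0)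

/-- closed form of `f_II` in terms of quotient and remainder -/
def Gv (L M q r : ℕ) : ℕ :=
  if r < L then max (q * M + r + 1 - L) (q * L)
  else if r < M then max (q * M) (Fv L M q (r - L)) else Fv L M q (r - L)

/-- closed form of `f_I` -/
def F (L M n : ℕ) : ℕ := Fv L M (n / (L + M)) (n % (L + M))

/-- closed form of `f_II` -/
def G (L M n : ℕ) : ℕ := Gv L M (n / (L + M)) (n % (L + M))

theorem mul_le {L M : ℕ} (hLM : L ≤ M) (q : ℕ) : q * L ≤ q * M := Nat.mul_le_mul_left q hLM

theorem isCash_FG {L M : ℕ} (hL : 1 ≤ L) (hLM : L ≤ M) : IsCash L M (F L M) (G L M) := by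
  have key : ∀ n, ∃ q r, r < L + M ∧ n = q * (L + M) + r ∧ n / (L + M) = q ∧ n % (L + M) = r := by
    intro n
    refine ⟨n / (L + M), n % (L + M), Nat.mod_lt _ (by omega), ?_, rfl, rfl⟩
    rw [Nat.mul_comm]; exact (Nat.div_add_mod _ _).symm
  constructor
  · intro n hn
    obtain ⟨q, r, hr, hnq, h1, h2⟩ := key n
    have hq : q = 0 := by
      rw [← h1]; exact Nat.div_eq_of_lt (by omega)
    subst hq
    simp only [F, G, h1, h2, Fv, Gv]
    simp at hnq
    constructor
    · split_ifs <;> omega
    · split_ifs <;> omega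
  · intro n hn
    obtain ⟨q, r, hr, hnq, h1, h2⟩ := key n
    have hG : G L M n = Gv L M q r := by simp only [G, h1, h2]
    have hval : ∀ a, L ≤ a → a ≤ M → a ≤ n →
        (a ≤ r ∧ F L M (n - a) = Fv L M q (r - a)) ∨
        (r < a ∧ ∃ q', q = q' + 1 ∧ F L M (n - a) = Fv L M q' (r + (L + M) - a)) := by
      intro a h3 h4 h5
      have := sub_decomp hL hLM hr h3 h4 (hnq ▸ h5)
      rw [← hnq] at this
      rcases this with ⟨h6, h7, h8⟩ | ⟨h6, q', h7, h8, h9⟩
      · left; exact ⟨h6, by simp only [F, h7, h8]⟩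
      · right; exact ⟨h6, q', h7, by simp only [F, h8, h9]⟩
    rw [hG]
    have hqLM := mul_le hLM q
    constructor
    · by_cases hrL : r < L
      · refine ⟨L, le_refl _, hLM, hn, ?_⟩
        rcases hval L le_rfl hLM hn with ⟨h6, _⟩ | ⟨h6, q', h7, h8⟩
        · omega
        · rw [h8]
          subst h7
          have := mul_le hLM q'
          simp only [Gv, Fv, hrL, if_true, Nat.add_mul, Nat.one_mul]
          split_ifs <;> omega
      · by_cases hrM : r < M
        · by_cases hmax : q * M ≤ Fv L M q (r - L)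
          · refine ⟨L, le_refl _, hLM, hn, ?_⟩
            rcases hval L le_rfl hLM hn with ⟨h6, h8⟩ | ⟨h6, q', h7, h8⟩
            · rw [h8]
              simp only [Gv, hrL, if_false, hrM, if_true]
              omega
            · omega
          · rcases q with _ | q'
            · simp at hmax
            · have hn1 : r + 1 ≤ n := by
                rw [hnq, Nat.add_mul]; omega
              refine ⟨r + 1, by omega, by omega, hn1, ?_⟩
              rcases hval (r + 1) (by omega) (by omega) hn1 with ⟨h6, h8⟩ | ⟨h6, q'', h7, h8⟩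
              · omega
              · obtain rfl : q' = q'' := by omega
                rw [h8]
                have := mul_le hLM q'
                simp only [Gv, hrL, if_false, hrM, if_true]
                rw [max_eq_left (by omega)]
                simp only [Fv, Nat.add_mul, Nat.one_mul]
                split_ifs <;> omega
        · refine ⟨L, le_refl _, hLM, hn, ?_⟩
          rcases hval L le_rfl hLM hn with ⟨h6, h8⟩ | ⟨h6, q', h7, h8⟩
          · rw [h8]
            simp only [Gv, hrL, if_false, hrM]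
          · omega
    · rintro x ⟨a, h3, h4, h5, rfl⟩
      rcases hval a h3 h4 h5 with ⟨h6, h8⟩ | ⟨h6, q', h7, h8⟩
      · rw [h8]
        have hrL : ¬ r < L := by omega
        have hmono : Fv L M q (r - a) ≤ Fv L M q (r - L) := by
          simp only [Fv]
          split_ifs <;> omega
        simp only [Gv, hrL, if_false]
        split_ifs <;> omega
      · rw [h8]
        subst h7
        have := mul_le hLM q'
        simp only [Gv, Fv, Nat.add_mul, Nat.one_mul]
        split_ifs <;> omega
  · intro n hn hW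
    obtain ⟨q, r, hr, hnq, h1, h2⟩ := key n
    rw [firstWins_iff hL hLM, h2] at hW
    have hF : F L M n = Fv L M q r := by simp only [F, h1, h2]
    have hval : ∀ a, L ≤ a → a ≤ M → a ≤ n →
        (a ≤ r ∧ (n - a) % (L + M) = r - a ∧ G L M (n - a) = Gv L M q (r - a)) ∨
        (r < a ∧ (n - a) % (L + M) = r + (L + M) - a ) := by
      intro a h3 h4 h5
      have := sub_decomp hL hLM hr h3 h4 (hnq ▸ h5)
      rw [← hnq] at this
      rcases this with ⟨h6, h7, h8⟩ | ⟨h6, q', h7, h8, h9⟩
      · left; exact ⟨h6, h8, by simp only [G, h7, h8]⟩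
      · right; exact ⟨h6, h9⟩
    have hqLM := mul_le hLM q
    rw [hF]
    constructor
    · by_cases hs : L - 1 ≤ r - L
      · refine ⟨r - (L - 1), by omega, by omega, by omega, ?_⟩
        rcases hval (r - (L - 1)) (by omega) (by omega) (by omega) with ⟨h6, h7, h8⟩ | ⟨h6, h7⟩
        · rw [firstWins_iff hL hLM, h7, h8]
          refine ⟨by omega, ?_⟩
          have h9 : r - (r - (L - 1)) = L - 1 := by omega
          rw [h9]
          simp only [Gv, Fv]
          split_ifs <;> omega
        · omega
      · refine ⟨L, by omega, by omega, by omega, ?_⟩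
        rcases hval L (by omega) (by omega) (by omega) with ⟨h6, h7, h8⟩ | ⟨h6, h7⟩
        · rw [firstWins_iff hL hLM, h7, h8]
          refine ⟨by omega, ?_⟩
          simp only [Gv, Fv]
          split_ifs <;> omega
        · omega
    · rintro x ⟨a, h3, h4, h5, h6, rfl⟩
      rw [firstWins_iff hL hLM] at h6
      rcases hval a h3 h4 h5 with ⟨h7, h8, h9⟩ | ⟨h7, h8⟩
      · rw [h8] at h6
        rw [h9]
        simp only [Gv, Fv]
        split_ifs <;> omega
      · omega
  · intro n hn hW
    obtain ⟨q, r, hr, hnq, h1, h2⟩ := key n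
    rw [firstWins_iff hL hLM, h2] at hW
    have hF : F L M n = Fv L M q r := by simp only [F, h1, h2]
    have hG : G L M n = Gv L M q r := by simp only [G, h1, h2]
    have hq : ∃ q', q = q' + 1 := by
      rcases q with _ | q'
      · simp at hnq; omega
      · exact ⟨q', rfl⟩
    obtain ⟨q', rfl⟩ := hq
    have hval : ∀ a, L ≤ a → a ≤ M → a ≤ n →
        (F L M (n - a) = Fv L M q' (r + (L + M) - a) ∧
          G L M (n - a) = Gv L M q' (r + (L + M) - a)) := by
      intro a h3 h4 h5
      have := sub_decomp hL hLM hr h3 h4 (hnq ▸ h5)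
      rw [← hnq] at this
      rcases this with ⟨h6, h7, h8⟩ | ⟨h6, q'', h7, h8, h9⟩
      · omega
      · obtain rfl : q' = q'' := by omega
        exact ⟨by simp only [F, h8, h9], by simp only [G, h8, h9]⟩
    have hqLM := mul_le hLM q'
    rw [hF, hG]
    constructor
    · refine ⟨L, by omega, by omega, by omega, ?_⟩
      obtain ⟨h3, h4⟩ := hval L (by omega) (by omega) (by omega)
      rw [h3, h4]
      constructor
      · simp only [Gv, Fv, Nat.add_mul, Nat.one_mul]
        split_ifs <;> omega
      · simp only [Gv, Fv, Nat.add_mul, Nat.one_mul]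
        split_ifs <;> omega
    · rintro x ⟨a, h3, h4, h5, h6, rfl⟩
      obtain ⟨h7, h8⟩ := hval a h3 h4 h5
      rw [h7] at h6
      rw [h8]
      have e1 : Fv L M q' (r + (L + M) - a)
          = max (q' * M + (r + (L + M) - a) + 1 - L) (q' * L + L) := by
        simp only [Fv]
        rw [if_pos (by omega)]
      have e2 : Gv L M (q' + 1) r = max ((q' * M + M) + r + 1 - L) (q' * L + L) := by
        simp only [Gv, Nat.add_mul, Nat.one_mul]
        rw [if_pos (by omega)]
      have e3 : q' * L ≤ Gv L M q' (r + (L + M) - a) := by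
        simp only [Gv, Fv]
        split_ifs <;> omega
      rw [e1, e2] at h6
      by_cases hA : L + (q' * L + L) ≤ r + (q' * M + M)
      · have haL : a = L := by omega
        subst haL
        have e4 : Fv a M (q' + 1) r = max ((q' * M + M) + r + 1 - a) (q' * a + a + a) := by
          simp only [Fv, Nat.add_mul, Nat.one_mul]
          rw [if_pos hA]
        have e5 : Gv a M q' (r + (a + M) - a) =
            max (q' * M + (r + M - a) + 1 - a) (q' * a + a) := by
          simp only [Gv, Fv]
          rw [if_neg (by omega), if_neg (by omega), if_pos (by omega)]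
          congr 3
          omega
        rw [e4, e5]
        omega
      · have e4 : Fv L M (q' + 1) r = max ((q' * M + M) + r + 1 - L) (q' * L + L) := by
          simp only [Fv, Nat.add_mul, Nat.one_mul]
          rw [if_neg hA]
          rfl
        rw [e4]
        omega

theorem isCash_unique {L M : ℕ} (hL : 1 ≤ L) {f g f' g' : ℕ → ℕ}
    (h : IsCash L M f g) (h' : IsCash L M f' g') (n : ℕ) : f n = f' n ∧ g n = g' n := by
  induction n using Nat.strong_induction_on with
  | _ n ih =>
    by_cases hn : n < L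
    · exact ⟨(h.base n hn).1.trans (h'.base n hn).1.symm,
        (h.base n hn).2.trans (h'.base n hn).2.symm⟩
    · have hn' : L ≤ n := by omega
      have hg : g n = g' n := by
        have e : {x | ∃ a, L ≤ a ∧ a ≤ M ∧ a ≤ n ∧ x = f (n - a)} =
            {x | ∃ a, L ≤ a ∧ a ≤ M ∧ a ≤ n ∧ x = f' (n - a)} := by
          ext x
          constructor
          · rintro ⟨a, h1, h2, h3, h4⟩
            exact ⟨a, h1, h2, h3, by rw [h4, (ih (n - a) (by omega)).1]⟩
          · rintro ⟨a, h1, h2, h3, h4⟩
            exact ⟨a, h1, h2, h3, by rw [h4, (ih (n - a) (by omega)).1]⟩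
        have h1 := h.two n hn'
        rw [e] at h1
        exact h1.unique (h'.two n hn')
      refine ⟨?_, hg⟩
      by_cases hW : FirstWins L M n
      · have e : {x | ∃ a, L ≤ a ∧ a ≤ M ∧ a ≤ n ∧ ¬ FirstWins L M (n - a) ∧
              x = g (n - a) + a} =
            {x | ∃ a, L ≤ a ∧ a ≤ M ∧ a ≤ n ∧ ¬ FirstWins L M (n - a) ∧
              x = g' (n - a) + a} := by
          ext x
          constructor
          · rintro ⟨a, h1, h2, h3, h4, h5⟩
            exact ⟨a, h1, h2, h3, h4, by rw [h5, (ih (n - a) (by omega)).2]⟩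
          · rintro ⟨a, h1, h2, h3, h4, h5⟩
            exact ⟨a, h1, h2, h3, h4, by rw [h5, (ih (n - a) (by omega)).2]⟩
        have h1 := h.one_win n hn' hW
        rw [e] at h1
        exact h1.unique (h'.one_win n hn' hW)
      · have e : {x | ∃ a, L ≤ a ∧ a ≤ M ∧ a ≤ n ∧ f (n - a) = g n ∧
              x = g (n - a) + a} =
            {x | ∃ a, L ≤ a ∧ a ≤ M ∧ a ≤ n ∧ f' (n - a) = g' n ∧
              x = g' (n - a) + a} := by
          ext x
          constructor
          · rintro ⟨a, h1, h2, h3, h4, h5⟩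
            exact ⟨a, h1, h2, h3, by rw [← (ih (n - a) (by omega)).1, h4, hg],
              by rw [h5, (ih (n - a) (by omega)).2]⟩
          · rintro ⟨a, h1, h2, h3, h4, h5⟩
            exact ⟨a, h1, h2, h3, by rw [(ih (n - a) (by omega)).1, h4, hg],
              by rw [h5, (ih (n - a) (by omega)).2]⟩
        have h1 := h.one_lose n hn' hW
        rw [e] at h1
        exact h1.unique (h'.one_lose n hn' hW)

theorem periodic_FG {L M : ℕ} (hL : 1 ≤ L) (hLM : L ≤ M) (n : ℕ)
    (hn : (2 * L) * (L + M) ≤ n) :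
    F L M (n + L + M) = F L M n + M ∧ G L M (n + L + M) = G L M n + M := by
  have hr : n % (L + M) < L + M := Nat.mod_lt _ (by omega)
  have h1 : (n + L + M) / (L + M) = n / (L + M) + 1 := by
    rw [Nat.add_assoc]; exact Nat.add_div_right _ (by omega)
  have h2 : (n + L + M) % (L + M) = n % (L + M) := by
    rw [Nat.add_assoc]; exact Nat.add_mod_right _ _
  have hq : 2 * L ≤ n / (L + M) := (Nat.le_div_iff_mul_le (by omega)).2 hn
  simp only [F, G, h1, h2]
  generalize n / (L + M) = q at hq ⊢
  generalize n % (L + M) = r at hr ⊢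
  have hqLM := mul_le hLM q
  rcases Nat.eq_or_lt_of_le hLM with h | h
  · subst h
    simp only [Gv, Fv, Nat.add_mul, Nat.one_mul]
    constructor
    · split_ifs <;> omega
    · split_ifs <;> omega
  · have hq2 : q * L + 2 * L ≤ q * M := by
      have h3 : q * (L + 1) ≤ q * M := Nat.mul_le_mul_left q h
      rw [Nat.mul_add, Nat.mul_one] at h3
      omega
    simp only [Gv, Fv, Nat.add_mul, Nat.one_mul]
    constructor
    · split_ifs <;> omega
    · split_ifs <;> omega

theorem result (L M : ℕ) (hL : 1 ≤ L) (hLM : L ≤ M) :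
    (∃! f : (ℕ → ℕ) × (ℕ → ℕ), IsCash L M f.1 f.2) ∧
    ∀ fI fII : ℕ → ℕ, IsCash L M fI fII →
      ∃ Θ : ℕ, Θ ≤ 2 * L * (L + M) ∧
        ∀ n, Θ ≤ n → fI (n + L + M) = fI n + M ∧ fII (n + L + M) = fII n + M := by
  refine ⟨⟨(F L M, G L M), isCash_FG hL hLM, ?_⟩, ?_⟩
  · rintro ⟨f, g⟩ h
    have h1 := fun n => isCash_unique hL h (isCash_FG hL hLM) n
    exact Prod.ext (funext fun n => (h1 n).1) (funext fun n => (h1 n).2)
  · intro fI fII h
    have h1 := fun n => isCash_unique hL h (isCash_FG hL hLM) n
    refine ⟨2 * L * (L + M), le_rfl, fun n hn => ?_⟩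
    rw [(h1 _).1, (h1 _).1, (h1 _).2, (h1 _).2]
    exact periodic_FG hL hLM n hn

end Pool.Agent.Results.MP_88cfb8_co.CashThresholds
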